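import Pool.Agent.H54.WB.TargetsB

/-!
# Board wdb, row VTA: the tame side for the vertex cover number
-/

set_option autoImplicit false

namespace Pool.Agent.H27.WB

open Pool.Agent.H69.VR Pool.Agent.H8.VR Pool.Agent.H8.MC Pool.Agent.H54.WB
open Pool.Agent.H8.MP (EvPer ev_of_up)

/-- satisfaction is invariant under isomorphisms -/
theorem sat_equiv {A B : Type} (g : A ≃ B) {P : ℕ → A → Prop} {R : ℕ → A → A → Prop}
    {P' : ℕ → B → Prop} {R' : ℕ → B → B → Prop} (hP : ∀ i a, P i a ↔ P' i (g a))
    (hR : ∀ i a b, R i a b ↔ R' i (g a) (g b)) : ∀ (φ : MS) (e : ℕ → A) (V : ℕ → Set A),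
    φ.Sat P R e V ↔ φ.Sat P' R' (fun x => g (e x)) (fun X => g '' (V X)) := by
  intro φ
  induction φ with
  | un i x => exact fun e V => hP i (e x)
  | bi i x y => exact fun e V => hR i (e x) (e y)
  | eq x y => exact fun e V => g.injective.eq_iff.symm
  | mem x X => exact fun e V => g.injective.mem_set_image.symm
  | mod X q r =>
    intro e V
    change (V X).ncard ≡ r [MOD q + 1] ↔ (g '' (V X)).ncard ≡ r [MOD q + 1]
    rw [Set.ncard_image_of_injective _ g.injective]
  | neg φ ih => exact fun e V => not_congr (ih e V)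
  | and φ ψ ih1 ih2 => exact fun e V => and_congr (ih1 e V) (ih2 e V)
  | ex x φ ih =>
    intro e V
    have key : ∀ a : A, (fun y => g (Function.update e x a y)) =
        Function.update (fun y => g (e y)) x (g a) := by
      intro a
      funext y
      by_cases h : y = x
      · rw [h, Function.update_self, Function.update_self]
      · rw [Function.update_of_ne h, Function.update_of_ne h]
    constructor
    · rintro ⟨a, ha⟩
      refine ⟨g a, ?_⟩
      rw [← key a]
      exact (ih _ _).1 ha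
    · rintro ⟨b, hb⟩
      obtain ⟨a, rfl⟩ := g.surjective b
      refine ⟨a, (ih _ _).2 ?_⟩
      rw [key a]
      exact hb
  | exS X φ ih =>
    intro e V
    have key : ∀ S : Set A, (fun Y => g '' (Function.update V X S Y)) =
        Function.update (fun Y => g '' (V Y)) X (g '' S) := by
      intro S
      funext Y
      by_cases h : Y = X
      · rw [h, Function.update_self, Function.update_self]
      · rw [Function.update_of_ne h, Function.update_of_ne h]
    constructor
    · rintro ⟨S, hS⟩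
      refine ⟨g '' S, ?_⟩
      rw [← key S]
      exact (ih _ _).1 hS
    · rintro ⟨S', hS⟩
      obtain ⟨S, rfl⟩ : ∃ S : Set A, g '' S = S' := ⟨g ⁻¹' S', Set.image_preimage_eq _ g.surjective⟩
      refine ⟨S, (ih _ _).2 ?_⟩
      rw [key S]
      exact hS

theorem valid_equiv {A B : Type} (g : A ≃ B) {P : ℕ → A → Prop} {R : ℕ → A → A → Prop}
    {P' : ℕ → B → Prop} {R' : ℕ → B → B → Prop} (hP : ∀ i a, P i a ↔ P' i (g a))
    (hR : ∀ i a b, R i a b ↔ R' i (g a) (g b)) (φ : MS)
    (h : ∀ (e : ℕ → A) (V : ℕ → Set A), φ.Sat P R e V) (e : ℕ → B) (V : ℕ → Set B) :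
    φ.Sat P' R' e V := by
  have h1 := (sat_equiv g hP hR φ (fun x => g.symm (e x)) (fun X => g ⁻¹' (V X))).1 (h _ _)
  have e1 : (fun x => g (g.symm (e x))) = e := funext fun x => g.apply_symm_apply _
  have e2 : (fun X => g '' (g ⁻¹' (V X))) = V :=
    funext fun X => Set.image_preimage_eq _ g.surjective
  rw [e1, e2] at h1
  exact h1

theorem below_mono {m m' : ℕ} (h : m ≤ m') : ∀ φ : MS, φ.Below m → φ.Below m' := by
  intro φ
  induction φ with
  | un i x => exact fun h1 => lt_of_lt_of_le h1 h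
  | bi i x y => exact fun h1 => lt_of_lt_of_le h1 h
  | eq x y => exact fun _ => trivial
  | mem x X => exact fun _ => trivial
  | mod X q r => exact fun _ => trivial
  | neg φ ih => exact fun h1 => ih h1
  | and φ ψ ih1 ih2 => exact fun h1 => ⟨ih1 h1.1, ih2 h1.2⟩
  | ex x φ ih => exact fun h1 => ih h1
  | exS X φ ih => exact fun h1 => ih h1

theorem below_ex : ∀ φ : MS, ∃ m, φ.Below m := by
  intro φ
  induction φ with
  | un i x => exact ⟨i + 1, Nat.lt_succ_self i⟩
  | bi i x y => exact ⟨i + 1, Nat.lt_succ_self i⟩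
  | eq x y => exact ⟨0, trivial⟩
  | mem x X => exact ⟨0, trivial⟩
  | mod X q r => exact ⟨0, trivial⟩
  | neg φ ih => exact ih
  | and φ ψ ih1 ih2 =>
    obtain ⟨a, ha⟩ := ih1
    obtain ⟨b, hb⟩ := ih2
    exact ⟨max a b, below_mono (le_max_left a b) φ ha, below_mono (le_max_right a b) ψ hb⟩
  | ex x φ ih => exact ih
  | exS X φ ih => exact ih

theorem pf_VTA (hTWN : T_TWN) : T_VTA := by
  classical
  intro f hf hlog Ψ _
  obtain ⟨m, hm⟩ := below_ex Ψ
  obtain ⟨q, t, hq, ht, hT⟩ := hTWN Ψ m hm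
  obtain ⟨n₀, hn₀⟩ := hlog (t + m + 3)
  refine ev_of_up _ n₀ q hq ?_
  rintro n hn ⟨hn0, P, G, ⟨X, hX, hcov⟩, hsat⟩
  -- the size of n
  have b1 : 2 ^ (f n + (t + m + 3)) ≤ n :=
    le_trans (Nat.pow_le_pow_right (by norm_num) (hn₀ n hn)) (Nat.pow_log_le_self 2 hn0.ne')
  have b2 : 2 ^ (f n + (t + m + 3)) = 8 * (2 ^ m * 2 ^ f n * 2 ^ t) := by
    rw [pow_add, pow_add, pow_add]
    ring
  have b3 : f n < 2 ^ f n := Nat.lt_two_pow_self
  have b4 : t < 2 ^ t := Nat.lt_two_pow_self
  have b5 : 2 ^ f n ≤ 2 ^ m * 2 ^ f n * 2 ^ t := by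
    have h1 : 1 ≤ 2 ^ m := Nat.one_le_two_pow
    have h2 : 1 ≤ 2 ^ t := Nat.one_le_two_pow
    calc 2 ^ f n = 1 * 2 ^ f n * 1 := by ring
      _ ≤ _ := Nat.mul_le_mul (Nat.mul_le_mul h1 le_rfl) h2
  have b6 : 2 ^ m * 2 ^ f n * t ≤ 2 ^ m * 2 ^ f n * 2 ^ t := Nat.mul_le_mul le_rfl b4.le
  -- the classes
  set κ : Fin n → (Fin m → Bool) × Finset (Fin n) := fun a =>
    (fun i => decide (P i a), Finset.univ.filter (fun x => x ∈ X ∧ G.Adj a x)) with hκ
  set XF : Finset (Fin n) := Finset.univ.filter (fun x => x ∈ X) with hXF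
  have hXF1 : XF.card ≤ f n := by
    have h1 : XF.card = X.ncard := by
      rw [← Set.ncard_coe_finset]
      congr 1
      ext x
      simp [hXF]
    rw [h1]
    exact hX
  set Z : Finset (Fin n) := Finset.univ.filter (fun x => x ∉ X) with hZ
  have hZ1 : n ≤ Z.card + XF.card := by
    have h1 := Finset.card_filter_add_card_filter_not (s := (Finset.univ : Finset (Fin n)))
      (fun x => x ∈ X)
    rw [Finset.card_univ, Fintype.card_fin] at h1
    rw [hZ, hXF]
    omega
  set T : Finset ((Fin m → Bool) × Finset (Fin n)) := Finset.univ ×ˢ XF.powerset with hTT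
  have hT1 : T.card ≤ 2 ^ m * 2 ^ f n := by
    rw [hTT, Finset.card_product, Finset.card_powerset, Finset.card_univ, Fintype.card_fun,
      Fintype.card_bool, Fintype.card_fin]
    exact Nat.mul_le_mul le_rfl (Nat.pow_le_pow_right (by norm_num) hXF1)
  have hmaps : ∀ a ∈ Z, κ a ∈ T := by
    intro a _
    rw [hTT, Finset.mem_product]
    refine ⟨Finset.mem_univ _, ?_⟩
    rw [Finset.mem_powerset]
    intro x hx
    rw [Finset.mem_filter] at hx
    rw [hXF, Finset.mem_filter]
    exact ⟨Finset.mem_univ _, hx.2.1⟩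
  have hlt : T.card * t < Z.card := by
    have h1 : T.card * t ≤ 2 ^ m * 2 ^ f n * t := Nat.mul_le_mul hT1 le_rfl
    omega
  obtain ⟨y, -, hy⟩ := Finset.exists_lt_card_fiber_of_mul_lt_card_of_maps_to hmaps hlt
  set SF : Finset (Fin n) := Z.filter (fun a => κ a = y) with hSF
  set S : Set (Fin n) := {a | a ∉ X ∧ κ a = y} with hS
  have hSS : (SF : Set (Fin n)) = S := by
    ext a
    simp [hSF, hZ, hS]
  have hScard : t ≤ S.ncard := by
    rw [← hSS, Set.ncard_coe_finset]
    exact hy.le
  obtain ⟨w, hw⟩ : SF.Nonempty := Finset.card_pos.1 (lt_of_le_of_lt (Nat.zero_le _) hy)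
  have hwS : w ∈ S := by
    rw [← hSS]
    exact hw
  have hno : ∀ a b, a ∉ X → b ∉ X → ¬ G.Adj a b := by
    intro a b ha hb hab
    rcases hcov a b hab with h | h
    · exact ha h
    · exact hb h
  have htw : Twins m P G.Adj S := by
    refine ⟨?_, ?_, ?_⟩
    · intro a ha b hb i hi
      have h1 : κ a = κ b := ha.2.trans hb.2.symm
      have h2 : decide (P i a) = decide (P i b) := congrFun (congrArg Prod.fst h1) ⟨i, hi⟩
      exact decide_eq_decide.1 h2
    · intro a ha b hb x hx
      have h1 : κ a = κ b := ha.2.trans hb.2.symm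
      have h2 : Finset.univ.filter (fun x => x ∈ X ∧ G.Adj a x) =
        Finset.univ.filter (fun x => x ∈ X ∧ G.Adj b x) := congrArg Prod.snd h1
      have h3 : G.Adj a x ↔ G.Adj b x := by
        by_cases hxX : x ∈ X
        · have h4 := Finset.ext_iff.1 h2 x
          simpa [hxX] using h4
        · exact iff_of_false (hno a x ha.1 hxX) (hno b x hb.1 hxX)
      refine ⟨?_, h3⟩
      rw [G.adj_comm x a, G.adj_comm x b]
      exact h3
    · intro a ha b hb
      exact hno a b ha.1 hb.1
  have h1 := (hT (Fin n) P G.Adj S w htw hwS hScard).1 hsat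
  -- the new structure
  set g : Fin n ⊕ Fin q ≃ Fin (n + q) := finSumFinEquiv with hg
  refine ⟨by omega, fun i x => P i (ret q w (g.symm x)),
    SimpleGraph.comap (fun x => ret q w (g.symm x)) G, ?_, ?_⟩
  · refine ⟨g '' (Sum.inl '' X), ?_, ?_⟩
    · rw [Set.ncard_image_of_injective _ g.injective,
        Set.ncard_image_of_injective _ Sum.inl_injective]
      exact hX.trans (hf (Nat.le_add_right n q))
    · have h2 : ∀ u : Fin (n + q), ret q w (g.symm u) ∈ X → u ∈ g '' (Sum.inl '' X) := by
        intro u hu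
        rcases h3 : g.symm u with a | j
        · refine ⟨Sum.inl a, ⟨a, ?_, rfl⟩, ?_⟩
          · rw [h3] at hu
            exact hu
          · rw [← h3]
            exact g.apply_symm_apply u
        · rw [h3] at hu
          exact absurd hu hwS.1
      intro u v huv
      rcases hcov _ _ huv with h | h
      · exact Or.inl (h2 u h)
      · exact Or.inr (h2 v h)
  · refine valid_equiv g (P := fun i x => P i (ret q w x))
      (R := fun _ x y => G.Adj (ret q w x) (ret q w y)) ?_ ?_ Ψ h1
    · intro i a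
      rw [g.symm_apply_apply]
    · intro i a b
      rw [SimpleGraph.comap_adj, g.symm_apply_apply, g.symm_apply_apply]

end Pool.Agent.H27.WB
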